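import Mathlib

/-!
# Hadamard matrices from Goethals-Seidel arrays over a finite abelian group

`gs a b c d` is the Goethals-Seidel array of four functions on a finite abelian group `G`.
`hadamard_gs`: order `4 |G|`, `hadamard_spence`: bordered array of order `4 (|G| + 1)`.
-/

set_option autoImplicit false

namespace Pool.Agent.TH394

open Finset Matrix

variable {G : Type} [AddCommGroup G] [Fintype G]

/-- cross correlation -/
def X (f g : G → ℤ) (s : G) : ℤ := ∑ x, f x * g (x + s)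
/-- convolution -/
def Y (f g : G → ℤ) (s : G) : ℤ := ∑ x, f x * g (s - x)

theorem X_neg (f g : G → ℤ) (s : G) : X f g (-s) = X g f s := by
  unfold X
  rw [← Equiv.sum_comp (Equiv.addRight s)]
  refine Finset.sum_congr rfl fun x _ => ?_
  simp only [Equiv.coe_addRight]
  rw [add_neg_cancel_right, mul_comm]

theorem Y_symm (f g : G → ℤ) (s : G) : Y f g s = Y g f s := by
  unfold Y
  rw [← (Equiv.subLeft s).sum_comp]
  refine Finset.sum_congr rfl fun x _ => ?_
  simp only [Equiv.subLeft_apply]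
  rw [sub_sub_cancel, mul_comm]

/-- `(A)_{x,y} = f (y - x)`, type one -/
theorem s11 (f g : G → ℤ) (x x' : G) : ∑ y, f (y - x) * g (y - x') = X f g (x - x') := by
  unfold X
  rw [← Equiv.sum_comp (Equiv.addRight x)]
  refine Finset.sum_congr rfl fun y _ => ?_
  simp only [Equiv.coe_addRight]
  congr 2 <;> abel

/-- `(A R)_{x,y} = f (-(x + y))` -/
theorem s22 (f g : G → ℤ) (x x' : G) : ∑ y, f (-(x + y)) * g (-(x' + y)) = X f g (x - x') := by
  unfold X
  rw [← ((Equiv.neg G).trans (Equiv.subRight x)).sum_comp]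
  refine Finset.sum_congr rfl fun y _ => ?_
  simp only [Equiv.trans_apply, Equiv.neg_apply, Equiv.subRight_apply]
  congr 2 <;> abel

/-- `(Aᵀ R)_{x,y} = f (x + y)` -/
theorem s33 (f g : G → ℤ) (x x' : G) : ∑ y, f (x + y) * g (x' + y) = X g f (x - x') := by
  unfold X
  rw [← (Equiv.subRight x').sum_comp]
  refine Finset.sum_congr rfl fun y _ => ?_
  simp only [Equiv.subRight_apply]
  rw [mul_comm]
  congr 2 <;> abel

theorem s12 (f g : G → ℤ) (x x' : G) : ∑ y, f (y - x) * g (-(x' + y)) = Y f g (-(x + x')) := by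
  unfold Y
  rw [← Equiv.sum_comp (Equiv.addRight x)]
  refine Finset.sum_congr rfl fun y _ => ?_
  simp only [Equiv.coe_addRight]
  congr 2 <;> abel

theorem s21 (f g : G → ℤ) (x x' : G) : ∑ y, f (-(x + y)) * g (y - x') = Y f g (-(x + x')) := by
  rw [Y_symm, add_comm x x', ← s12 g f x' x]
  refine Finset.sum_congr rfl fun y _ => mul_comm _ _

theorem s13 (f g : G → ℤ) (x x' : G) : ∑ y, f (y - x) * g (x' + y) = X f g (x + x') := by
  unfold X
  rw [← Equiv.sum_comp (Equiv.addRight x)]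
  refine Finset.sum_congr rfl fun y _ => ?_
  simp only [Equiv.coe_addRight]
  congr 2 <;> abel

theorem s31 (f g : G → ℤ) (x x' : G) : ∑ y, f (x + y) * g (y - x') = X g f (x + x') := by
  rw [add_comm x x', ← s13 g f x' x]
  refine Finset.sum_congr rfl fun y _ => mul_comm _ _

theorem s23 (f g : G → ℤ) (x x' : G) : ∑ y, f (-(x + y)) * g (x' + y) = Y f g (x' - x) := by
  unfold Y
  rw [← ((Equiv.neg G).trans (Equiv.subRight x)).sum_comp]
  refine Finset.sum_congr rfl fun y _ => ?_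
  simp only [Equiv.trans_apply, Equiv.neg_apply, Equiv.subRight_apply]
  congr 2 <;> abel

theorem s32 (f g : G → ℤ) (x x' : G) : ∑ y, f (x + y) * g (-(x' + y)) = Y f g (x - x') := by
  rw [Y_symm, ← s23 g f x' x]
  refine Finset.sum_congr rfl fun y _ => mul_comm _ _

/-- The Goethals-Seidel array. -/
def gs (a b c d : G → ℤ) : Fin 4 → G → Fin 4 → G → ℤ
  | 0, x, 0, y => a (y - x)
  | 0, x, 1, y => b (-(x + y))
  | 0, x, 2, y => c (-(x + y))
  | 0, x, 3, y => d (-(x + y))
  | 1, x, 0, y => -b (-(x + y))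
  | 1, x, 1, y => a (y - x)
  | 1, x, 2, y => d (x + y)
  | 1, x, 3, y => -c (x + y)
  | 2, x, 0, y => -c (-(x + y))
  | 2, x, 1, y => -d (x + y)
  | 2, x, 2, y => a (y - x)
  | 2, x, 3, y => b (x + y)
  | 3, x, 0, y => -d (-(x + y))
  | 3, x, 1, y => c (x + y)
  | 3, x, 2, y => -b (x + y)
  | 3, x, 3, y => a (y - x)

/-- The sum of the four periodic autocorrelations. -/
def P (a b c d : G → ℤ) (s : G) : ℤ := X a a s + X b b s + X c c s + X d d s

theorem P_neg (a b c d : G → ℤ) (s : G) : P a b c d (-s) = P a b c d s := by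
  unfold P; simp only [X_neg]

theorem gs_inner (a b c d : G → ℤ) (i i' : Fin 4) (x x' : G) :
    ∑ j, ∑ y, gs a b c d i x j y * gs a b c d i' x' j y =
      if i = i' then P a b c d (x - x') else 0 := by
  fin_cases i <;> fin_cases i' <;>
    simp only [Fin.zero_eta, Fin.mk_one, Fin.reduceFinMk, Fin.isValue, Fin.sum_univ_four, gs,
      neg_mul, mul_neg, neg_neg, Finset.sum_neg_distrib,
      s11, s22, s33, s12, s21, s13, s31, s23, s32, P, reduceIte, Fin.reduceEq, zero_ne_one,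
      one_ne_zero]
  all_goals
    try simp only [Y_symm b a, Y_symm c a, Y_symm d a, Y_symm c b, Y_symm d b, Y_symm d c]
  all_goals try ring

/-- There is a Hadamard matrix of order `N`. -/
def HadOrder (N : ℕ) : Prop :=
  ∃ H : Matrix (Fin N) (Fin N) ℤ, (∀ i j, H i j = 1 ∨ H i j = -1) ∧ H * Hᵀ = (N : ℤ) • 1

theorem hadOrder_of {ι : Type} [Fintype ι] [DecidableEq ι] (N : ℕ) (hN : Fintype.card ι = N)
    (B : ι → ι → ℤ) (h1 : ∀ p q, B p q = 1 ∨ B p q = -1)
    (h2 : ∀ p q, ∑ r, B p r * B q r = if p = q then (N : ℤ) else 0) : HadOrder N := by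
  subst hN
  let e : Fin (Fintype.card ι) ≃ ι := (Fintype.equivFin ι).symm
  refine ⟨Matrix.of fun i j => B (e i) (e j), fun i j => h1 _ _, ?_⟩
  ext i j
  have := h2 (e i) (e j)
  rw [← Equiv.sum_comp e] at this
  rw [Matrix.mul_apply, Matrix.smul_apply, Matrix.one_apply]
  simp only [Matrix.transpose_apply, Matrix.of_apply, smul_eq_mul]
  rw [this]
  by_cases h : i = j
  · simp [h]
  · simp [h]

theorem P_zero (a b c d : G → ℤ) (ha : ∀ x, a x = 1 ∨ a x = -1) (hb : ∀ x, b x = 1 ∨ b x = -1)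
    (hc : ∀ x, c x = 1 ∨ c x = -1) (hd : ∀ x, d x = 1 ∨ d x = -1) :
    P a b c d 0 = 4 * (Fintype.card G : ℤ) := by
  have key : ∀ f : G → ℤ, (∀ x, f x = 1 ∨ f x = -1) → X f f 0 = (Fintype.card G : ℤ) := by
    intro f hf
    unfold X
    have : ∀ x ∈ (Finset.univ : Finset G), f x * f (x + 0) = 1 := by
      intro x _
      rw [add_zero]
      rcases hf x with h | h <;> rw [h] <;> norm_num
    rw [Finset.sum_congr rfl this]
    simp
  unfold P
  rw [key a ha, key b hb, key c hc, key d hd]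
  ring

theorem gs_pm (a b c d : G → ℤ) (ha : ∀ x, a x = 1 ∨ a x = -1) (hb : ∀ x, b x = 1 ∨ b x = -1)
    (hc : ∀ x, c x = 1 ∨ c x = -1) (hd : ∀ x, d x = 1 ∨ d x = -1) (i j : Fin 4) (x y : G) :
    gs a b c d i x j y = 1 ∨ gs a b c d i x j y = -1 := by
  have flip : ∀ t : ℤ, (t = 1 ∨ t = -1) → (-t = 1 ∨ -t = -1) := by
    intro t ht; rcases ht with h | h <;> subst h <;> simp
  fin_cases i <;> fin_cases j <;>
    simp only [Fin.zero_eta, Fin.mk_one, Fin.reduceFinMk, Fin.isValue, gs] <;>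
    first
      | exact ha _ | exact hb _ | exact hc _ | exact hd _
      | exact flip _ (hb _) | exact flip _ (hc _) | exact flip _ (hd _)

/-- Goethals-Seidel: four `±1` functions with vanishing total periodic autocorrelation. -/
theorem hadamard_gs [DecidableEq G] (a b c d : G → ℤ) (ha : ∀ x, a x = 1 ∨ a x = -1)
    (hb : ∀ x, b x = 1 ∨ b x = -1) (hc : ∀ x, c x = 1 ∨ c x = -1)
    (hd : ∀ x, d x = 1 ∨ d x = -1) (hP : ∀ s, s ≠ 0 → P a b c d s = 0) :
    HadOrder (4 * Fintype.card G) := by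
  refine hadOrder_of (ι := Fin 4 × G) _ (by simp) (fun p q => gs a b c d p.1 p.2 q.1 q.2)
    (fun p q => gs_pm a b c d ha hb hc hd _ _ _ _) ?_
  rintro ⟨i, x⟩ ⟨i', x'⟩
  rw [Fintype.sum_prod_type]
  rw [gs_inner]
  by_cases h : i = i'
  · by_cases h' : x = x'
    · subst h; subst h'
      simp [P_zero a b c d ha hb hc hd]
    · simp [h, h', hP (x - x') (sub_ne_zero.2 h')]
  · simp [h]

/-- `J - 2 I` of order four -/
def Rg (i j : Fin 4) : ℤ := if i = j then -1 else 1
/-- Sylvester matrix of order four -/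
def Hm : Fin 4 → Fin 4 → ℤ :=
  ![![1, 1, 1, 1], ![1, -1, 1, -1], ![1, 1, -1, -1], ![1, -1, -1, 1]]
/-- `(J - 2 I) Hm / 2` -/
def Nm (i j : Fin 4) : ℤ := if j = 0 then 1 else -Hm i j

/-- The bordered array. -/
def bord (a b c d : G → ℤ) : Fin 4 ⊕ (Fin 4 × G) → Fin 4 ⊕ (Fin 4 × G) → ℤ
  | .inl k, .inl l => Rg k l
  | .inl k, .inr (j, _) => Nm k j
  | .inr (i, _), .inl l => -Hm l i
  | .inr (i, x), .inr (j, y) => gs a b c d i x j y

theorem gs_sum (a b c d : G → ℤ) (sa : ∑ x, a x = 2) (sb : ∑ x, b x = 0) (sc : ∑ x, c x = 0)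
    (sd : ∑ x, d x = 0) (i j : Fin 4) (x : G) :
    ∑ y, gs a b c d i x j y = if i = j then 2 else 0 := by
  have e1 : ∀ f : G → ℤ, ∑ y, f (y - x) = ∑ y, f y := fun f =>
    Equiv.sum_comp (Equiv.subRight x) f
  have e2 : ∀ f : G → ℤ, ∑ y, f (x + y) = ∑ y, f y := fun f =>
    Equiv.sum_comp (Equiv.addLeft x) f
  have e3 : ∀ f : G → ℤ, ∑ y, f (-(x + y)) = ∑ y, f y := fun f =>
    Equiv.sum_comp ((Equiv.addLeft x).trans (Equiv.neg G)) f
  fin_cases i <;> fin_cases j <;>
    simp only [Fin.zero_eta, Fin.mk_one, Fin.reduceFinMk, Fin.isValue, gs,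
      Finset.sum_neg_distrib, e1, e2, e3, sa, sb, sc, sd, neg_zero, reduceIte, Fin.reduceEq,
      zero_ne_one, one_ne_zero]

/-- Spence's bordered array. -/
theorem hadamard_spence [DecidableEq G] (a b c d : G → ℤ) (ha : ∀ x, a x = 1 ∨ a x = -1)
    (hb : ∀ x, b x = 1 ∨ b x = -1) (hc : ∀ x, c x = 1 ∨ c x = -1)
    (hd : ∀ x, d x = 1 ∨ d x = -1) (sa : ∑ x, a x = 2) (sb : ∑ x, b x = 0)
    (sc : ∑ x, c x = 0) (sd : ∑ x, d x = 0) (hP : ∀ s, s ≠ 0 → P a b c d s = -4) :
    HadOrder (4 * (Fintype.card G + 1)) := by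
  have hN : ∀ k j, Nm k j = 1 ∨ Nm k j = -1 := by decide
  have hH : ∀ k j, -Hm k j = 1 ∨ -Hm k j = -1 := by decide
  have hR : ∀ k j, Rg k j = 1 ∨ Rg k j = -1 := by decide
  refine hadOrder_of (ι := Fin 4 ⊕ (Fin 4 × G)) _ (by simp; ring) (bord a b c d) ?_ ?_
  · rintro (k | ⟨i, x⟩) (l | ⟨j, y⟩)
    · exact hR _ _
    · exact hN _ _
    · exact hH _ _
    · exact gs_pm a b c d ha hb hc hd _ _ _ _
  · have c1 : ∀ k l, ∑ r, Rg k r * Rg l r = if k = l then 4 else 0 := by decide
    have c2 : ∀ k l, ∑ r, Nm k r * Nm l r = if k = l then 4 else 0 := by decide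
    have c3 : ∀ k i, ∑ r, Rg k r * -Hm r i + Nm k i * 2 = 0 := by decide
    have c4 : ∀ i i', ∑ r, -Hm r i * -Hm r i' = if i = i' then 4 else 0 := by decide
    have cross : ∀ (k i : Fin 4) (x : G),
        ∑ r, bord a b c d (.inl k) r * bord a b c d (.inr (i, x)) r = 0 := by
      intro k i x
      rw [Fintype.sum_sum_type, Fintype.sum_prod_type]
      simp only [bord]
      have : ∑ j, ∑ y, Nm k j * gs a b c d i x j y = Nm k i * 2 := by
        simp only [← Finset.mul_sum, gs_sum a b c d sa sb sc sd]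
        simp
      rw [this]
      exact c3 k i
    rintro (k | ⟨i, x⟩) (l | ⟨i', x'⟩)
    · rw [Fintype.sum_sum_type, Fintype.sum_prod_type]
      simp only [bord, Finset.sum_const, Finset.card_univ, nsmul_eq_mul, ← Finset.mul_sum]
      rw [c1, c2]
      by_cases h : k = l
      · simp [h]; ring
      · simp [h]
    · rw [cross]; simp
    · have := cross l i x
      simp only [reduceCtorEq, if_false]
      rw [← this]
      exact Finset.sum_congr rfl fun r _ => mul_comm _ _
    · rw [Fintype.sum_sum_type, Fintype.sum_prod_type]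
      simp only [bord]
      rw [c4, gs_inner]
      by_cases h : i = i'
      · by_cases h' : x = x'
        · subst h; subst h'
          simp [P_zero a b c d ha hb hc hd]; ring
        · simp [h, h', hP (x - x') (sub_ne_zero.2 h')]
      · simp [h]

end Pool.Agent.TH394
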