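import Mathlib
import Pool.Agent.TH394.HadGS

/-!
# Checking four sequences on a product of cyclic groups inside the kernel
-/

set_option autoImplicit false

namespace Pool.Agent.TH394

/-- `∑ k < m, f k` -/
def sumN (m : ℕ) (f : ℕ → ℕ) : ℕ :=
  Nat.rec (motive := fun _ => ℕ) 0 (fun k ih => Nat.add ih (f k)) m

/-- `∀ k < m, p k` -/
def allN (m : ℕ) (p : ℕ → Bool) : Bool :=
  Nat.rec (motive := fun _ => Bool) true (fun k ih => cond (p k) ih false) m

theorem sumN_eq (m : ℕ) (f : ℕ → ℕ) : sumN m f = ∑ k : Fin m, f k.1 := by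
  induction m with
  | zero => rfl
  | succ m ih =>
    rw [Fin.sum_univ_castSucc]
    simp only [Fin.val_castSucc, Fin.val_last]
    rw [← ih]
    rfl

theorem allN_spec (m : ℕ) (p : ℕ → Bool) (h : allN m p = true) : ∀ k < m, p k = true := by
  induction m with
  | zero => intro k hk; omega
  | succ m ih =>
    have h' : cond (p m) (allN m p) false = true := h
    intro k hk
    cases hp : p m with
    | false => rw [hp] at h'; exact absurd h' Bool.false_ne_true
    | true =>
      rw [hp] at h'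
      rcases Nat.lt_succ_iff_lt_or_eq.1 hk with hk | hk
      · exact ih h' k hk
      · rw [hk]; exact hp

/-- Finite abelian groups with an encoding by natural numbers and kernel-friendly loops. -/
class Loop (G : Type) [AddCommGroup G] [Fintype G] where
  /-- the order -/
  c : ℕ
  c_pos : 0 < c
  /-- the encoding -/
  enc : G → ℕ
  enc_zero : ∀ s, enc s = 0 → s = 0
  /-- `∑ x, F (enc x) (enc (x + s))` -/
  corr : (ℕ → ℕ → ℕ) → G → ℕ
  corr_spec : ∀ F s, corr F s = ∑ x, F (enc x) (enc (x + s))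
  /-- loop over all elements -/
  all : (G → Bool) → Bool
  all_spec : ∀ p, all p = true → ∀ x, p x = true

instance loopFin (m : ℕ) [NeZero m] : Loop (Fin m) where
  c := m
  c_pos := Nat.pos_of_ne_zero (NeZero.ne m)
  enc x := x.1
  enc_zero s h := Fin.ext (by rw [h]; rfl)
  corr F s := sumN m (fun k => F k (Nat.mod (Nat.add k s.1) m))
  corr_spec F s := by
    rw [sumN_eq]
    rfl
  all p := allN m (fun k => p (Fin.ofNat m k))
  all_spec p h x := by
    have := allN_spec m _ h x.1 x.2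
    have e : Fin.ofNat m x.1 = x := Fin.ext (Nat.mod_eq_of_lt x.2)
    rw [e] at this
    exact this

instance loopProd (G G' : Type) [AddCommGroup G] [Fintype G] [AddCommGroup G'] [Fintype G']
    [Loop G] [Loop G'] : Loop (G × G') where
  c := Nat.mul (Loop.c G) (Loop.c G')
  c_pos := Nat.mul_pos Loop.c_pos Loop.c_pos
  enc x := Nat.add (Nat.mul (Loop.enc x.1) (Loop.c G')) (Loop.enc x.2)
  enc_zero s h := by
    have h' : Loop.enc s.1 * Loop.c G' + Loop.enc s.2 = 0 := h
    have hc : 0 < Loop.c G' := Loop.c_pos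
    have h1 : Loop.enc s.1 = 0 := by
      rcases Nat.eq_zero_or_pos (Loop.enc s.1) with h1 | h1
      · exact h1
      · have := Nat.mul_pos h1 hc
        omega
    have h2 : Loop.enc s.2 = 0 := by omega
    exact Prod.ext (Loop.enc_zero _ h1) (Loop.enc_zero _ h2)
  corr F s := Loop.corr (fun p q => Loop.corr (fun p' q' =>
    F (Nat.add (Nat.mul p (Loop.c G')) p') (Nat.add (Nat.mul q (Loop.c G')) q')) s.2) s.1
  corr_spec F s := by
    simp only [Loop.corr_spec]
    rw [Fintype.sum_prod_type]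
    rfl
  all p := Loop.all (fun i => Loop.all (fun j => p (i, j)))
  all_spec p h x := by
    have h1 := Loop.all_spec _ h x.1
    exact Loop.all_spec _ h1 x.2

/-- the `p`-th nibble -/
def nib (Q p : ℕ) : ℕ := Nat.land (Nat.shiftRight Q (Nat.mul 4 p)) 15

/-- `4 - popcount t` for `t < 16`, packed in nibbles -/
def agt : ℕ := 0x0112122312232334

/-- number of agreements of two nibbles -/
def agree (Q p q : ℕ) : ℕ :=
  Nat.land (Nat.shiftRight agt (Nat.mul 4 (Nat.xor (nib Q p) (nib Q q)))) 7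

/-- sign of bit `i` of a nibble -/
def sgn (t i : ℕ) : ℤ := if t.testBit i then 1 else -1

theorem sgn_pm (t i : ℕ) : sgn t i = 1 ∨ sgn t i = -1 := by
  unfold sgn; split_ifs <;> simp

theorem nib_lt (Q p : ℕ) : nib Q p < 16 := by
  have : nib Q p ≤ 15 := Nat.and_le_right
  omega

theorem agree_fin : ∀ p q : Fin 16,
    sgn p.1 0 * sgn q.1 0 + sgn p.1 1 * sgn q.1 1 + sgn p.1 2 * sgn q.1 2 +
      sgn p.1 3 * sgn q.1 3 =
    2 * ((Nat.land (Nat.shiftRight agt (Nat.mul 4 (Nat.xor p.1 q.1))) 7 : ℕ) : ℤ) - 4 := by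
  decide +kernel

theorem agree_eq (Q p q : ℕ) :
    sgn (nib Q p) 0 * sgn (nib Q q) 0 + sgn (nib Q p) 1 * sgn (nib Q q) 1 +
      sgn (nib Q p) 2 * sgn (nib Q q) 2 + sgn (nib Q p) 3 * sgn (nib Q q) 3 =
    2 * (agree Q p q : ℤ) - 4 :=
  agree_fin ⟨nib Q p, nib_lt Q p⟩ ⟨nib Q q, nib_lt Q q⟩

variable {G : Type} [AddCommGroup G] [Fintype G] [Loop G]

/-- the `i`-th sequence coded by `Q` -/
def sq (Q i : ℕ) (x : G) : ℤ := sgn (nib Q (Loop.enc x)) i

theorem P_sq (Q : ℕ) (s : G) :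
    P (sq Q 0) (sq Q 1) (sq Q 2) (sq Q 3) s =
      2 * (Loop.corr (agree Q) s : ℤ) - 4 * (Fintype.card G : ℤ) := by
  rw [Loop.corr_spec]
  unfold P X sq
  rw [← Finset.sum_add_distrib, ← Finset.sum_add_distrib, ← Finset.sum_add_distrib]
  rw [Finset.sum_congr rfl fun x _ => agree_eq Q (Loop.enc x) (Loop.enc (x + s))]
  push_cast
  rw [Finset.sum_sub_distrib, ← Finset.mul_sum]
  simp [mul_comm]

theorem sum_sq (Q i : ℕ) :
    ∑ x : G, sq Q i x =
      2 * (Loop.corr (fun p _ => Nat.mod (Nat.div (nib Q p) (2 ^ i)) 2) (0 : G) : ℤ) -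
        (Fintype.card G : ℤ) := by
  rw [Loop.corr_spec]
  have key : ∀ x : G, sq Q i x =
      2 * ((Nat.mod (Nat.div (nib Q (Loop.enc x)) (2 ^ i)) 2 : ℕ) : ℤ) - 1 := by
    intro x
    unfold sq sgn
    rw [Nat.testBit_eq_decide_div_mod_eq]
    have h2 : Nat.mod (Nat.div (nib Q (Loop.enc x)) (2 ^ i)) 2 =
      nib Q (Loop.enc x) / 2 ^ i % 2 := rfl
    rw [h2]
    rcases Nat.mod_two_eq_zero_or_one (nib Q (Loop.enc x) / 2 ^ i) with h | h <;> simp [h]
  rw [Finset.sum_congr rfl fun x _ => key x]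
  push_cast
  rw [Finset.sum_sub_distrib, ← Finset.mul_sum]
  simp

/-- one shift -/
def good (Q t : ℕ) (s : G) : Bool :=
  cond (Nat.beq (Loop.enc s) 0) true (Nat.beq (Loop.corr (agree Q) s) t)

theorem good_spec (Q t : ℕ) (s : G) (hs : s ≠ 0) (h : good Q t s = true) :
    Loop.corr (agree Q) s = t := by
  unfold good at h
  cases h0 : Nat.beq (Loop.enc s) 0 with
  | true => exact absurd (Loop.enc_zero s (Nat.eq_of_beq_eq_true h0)) hs
  | false =>
    rw [h0] at h
    exact Nat.eq_of_beq_eq_true h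

/-- check for the bordered array -/
def checkB (G : Type) [AddCommGroup G] [Fintype G] [Loop G] (Q v : ℕ) : Bool :=
  Loop.all (fun s : G => good Q (Nat.sub (Nat.mul 2 v) 2) s)

/-- number of `+1` in sequence `i` -/
def ones (G : Type) [AddCommGroup G] [Fintype G] [Loop G] (Q i : ℕ) : ℕ :=
  Loop.corr (fun p _ => Nat.mod (Nat.div (nib Q p) (2 ^ i)) 2) (0 : G)

theorem hadamard_checkB (G : Type) [AddCommGroup G] [Fintype G] [DecidableEq G] [Loop G]
    (Q v w : ℕ) (hv : Fintype.card G = v) (hw : v = 2 * w) (h : checkB G Q v = true)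
    (h0 : ones G Q 0 = w + 1) (h1 : ones G Q 1 = w) (h2 : ones G Q 2 = w)
    (h3 : ones G Q 3 = w) : HadOrder (4 * (v + 1)) := by
  have hcard : (Fintype.card G : ℤ) = 2 * (w : ℤ) := by rw [hv, hw]; push_cast; ring
  have hne : v ≠ 0 := by rw [← hv]; exact Fintype.card_ne_zero
  rw [← hv]
  refine hadamard_spence (sq Q 0) (sq Q 1) (sq Q 2) (sq Q 3) (fun x => sgn_pm _ _)
    (fun x => sgn_pm _ _) (fun x => sgn_pm _ _) (fun x => sgn_pm _ _) ?_ ?_ ?_ ?_ ?_
  · rw [sum_sq, hcard]; unfold ones at h0; rw [h0]; push_cast; ring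
  · rw [sum_sq, hcard]; unfold ones at h1; rw [h1]; ring
  · rw [sum_sq, hcard]; unfold ones at h2; rw [h2]; ring
  · rw [sum_sq, hcard]; unfold ones at h3; rw [h3]; ring
  · intro s hs
    have := good_spec Q _ s hs (Loop.all_spec _ h s)
    rw [P_sq, this, hcard]
    have e : Nat.sub (Nat.mul 2 v) 2 = 2 * v - 2 := rfl
    rw [e, hw]
    have : 1 ≤ w := by omega
    have e2 : ((2 * (2 * w) - 2 : ℕ) : ℤ) = 4 * (w : ℤ) - 2 := by omega
    rw [e2]; ring

/-- check for the Goethals-Seidel array -/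
def checkA (G : Type) [AddCommGroup G] [Fintype G] [Loop G] (Q v : ℕ) : Bool :=
  Loop.all (fun s : G => good Q (Nat.mul 2 v) s)

theorem hadamard_checkA (G : Type) [AddCommGroup G] [Fintype G] [DecidableEq G] [Loop G]
    (Q v : ℕ) (hv : Fintype.card G = v) (h : checkA G Q v = true) : HadOrder (4 * v) := by
  rw [← hv]
  refine hadamard_gs (sq Q 0) (sq Q 1) (sq Q 2) (sq Q 3) (fun x => sgn_pm _ _)
    (fun x => sgn_pm _ _) (fun x => sgn_pm _ _) (fun x => sgn_pm _ _) ?_
  intro s hs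
  have := good_spec Q _ s hs (Loop.all_spec _ h s)
  rw [P_sq, this, hv]
  have e : Nat.mul 2 v = 2 * v := rfl
  rw [e]; push_cast; ring

end Pool.Agent.TH394
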