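import Mathlib
import Pool.Agent.TH394.HadCheck

/-!
# A Hadamard matrix of order 1244

Four `±1` sequences on `Fin 2 × Fin 5 × Fin 31` (nibble `x` of `Q` holds the four signs at the element
with code `x`) with row sums `2, 0, 0, 0` and total periodic autocorrelation `-4`.
-/

set_option autoImplicit false

namespace Pool.Agent.TH394.N311

/-- the sequences -/
def Q : ℕ :=
  0x8858f5f8ffa5af085fffaa05fa0f002eede3d4e335d54aed34355ad45a4aa2eede3d4e335d54aed34355ad45a4aa28858f5f8ffa5af085fffaa05fa0f002dd2d029d0062695d20906652965955288d86d18662d21b8d61622bd12b1bbe1121926199d2d6612969dd626d6666e1121926199d2d6612969dd626d6666e88d86d18662d21b8d61622bd12b1bbe997927f922979fc972f299c7f9cfccf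

set_option maxRecDepth 100000 in
theorem check : checkB (Fin 2 × Fin 5 × Fin 31) Q 310 = true := by decide +kernel

theorem ones0 : ones (Fin 2 × Fin 5 × Fin 31) Q 0 = 156 := by decide +kernel
theorem ones1 : ones (Fin 2 × Fin 5 × Fin 31) Q 1 = 155 := by decide +kernel
theorem ones2 : ones (Fin 2 × Fin 5 × Fin 31) Q 2 = 155 := by decide +kernel
theorem ones3 : ones (Fin 2 × Fin 5 × Fin 31) Q 3 = 155 := by decide +kernel

theorem had : HadOrder 1244 :=
  hadamard_checkB (Fin 2 × Fin 5 × Fin 31) Q 310 155 (by simp) (by norm_num) check ones0 ones1 ones2 ones3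

end Pool.Agent.TH394.N311
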