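import Mathlib
import Pool.Agent.TH394.HadCheck

/-!
# A Goethals-Seidel array with a border of width twelve

`G` is a finite abelian group with a homomorphism onto a group `Q` of order four, `a, b, c, d` are
four `±1` functions on `G`, and `φ 0, φ 1, φ 2` are three orthogonal `±1` functions of sum zero on
`Q`. If the total periodic autocorrelation of `a, b, c, d` is
`-4 ∑ k, φ k x * φ k y` at `x - y ≠ 0` (that is, `-12` on the kernel of the homomorphism and `4`
elsewhere) and the Goethals-Seidel array of `a, b, c, d` acts diagonally on the `φ k`, then the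
array can be bordered by twelve rows and columns to a Hadamard matrix of order `4 (|G| + 3)`, as
soon as three suitable matrices of order twelve exist.
-/

set_option autoImplicit false
set_option linter.unusedSectionVars false
set_option linter.unusedSimpArgs false

namespace Pool.Agent.TH394

open Finset Matrix

variable {G : Type} [AddCommGroup G] [Fintype G] {Q : Type} [AddCommGroup Q] [Fintype Q]
  [DecidableEq Q]

/-- Sums over `G` through a map to `Q`. -/
theorem sum_fib (π : G → Q) (f : G → ℤ) (F : Q → ℤ)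
    (hF : ∀ q, ∑ x, (if π x = q then f x else 0) = F q) (g : Q → ℤ) :
    ∑ x, f x * g (π x) = ∑ q, F q * g q := by
  simp only [← hF, Finset.sum_mul]
  rw [Finset.sum_comm]
  refine Finset.sum_congr rfl fun x _ => ?_
  simp only [ite_mul, zero_mul]
  rw [Finset.sum_ite_eq]
  simp

theorem q1 (π : G → Q) (hπ : ∀ x y, π (x + y) = π x + π y) (f : G → ℤ) (F : Q → ℤ)
    (hF : ∀ q, ∑ x, (if π x = q then f x else 0) = F q) (g : Q → ℤ) (x : G) :
    ∑ y, f (y - x) * g (π y) = ∑ q, F (q - π x) * g q := by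
  rw [← Equiv.sum_comp (Equiv.addRight x), ← Equiv.sum_comp (Equiv.addRight (π x))]
  simp only [Equiv.coe_addRight, add_sub_cancel_right, hπ]
  exact sum_fib π f F hF (fun q => g (q + π x))

theorem pi_neg (π : G → Q) (hπ : ∀ x y, π (x + y) = π x + π y) (x : G) : π (-x) = -π x := by
  have h0 : π 0 = 0 := by
    have := hπ 0 0
    rw [add_zero] at this
    exact left_eq_add.1 this
  have := hπ x (-x)
  rw [add_neg_cancel, h0] at this
  exact (neg_eq_of_add_eq_zero_right this.symm).symm

theorem q2 (π : G → Q) (hπ : ∀ x y, π (x + y) = π x + π y) (f : G → ℤ) (F : Q → ℤ)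
    (hF : ∀ q, ∑ x, (if π x = q then f x else 0) = F q) (g : Q → ℤ) (x : G) :
    ∑ y, f (-(x + y)) * g (π y) = ∑ q, F (-(π x + q)) * g q := by
  rw [← ((Equiv.neg G).trans (Equiv.subRight x)).sum_comp,
    ← ((Equiv.neg Q).trans (Equiv.subRight (π x))).sum_comp]
  simp only [Equiv.trans_apply, Equiv.neg_apply, Equiv.subRight_apply, add_sub_cancel, neg_neg]
  have : ∀ t : G, π (-t - x) = -π t - π x := by
    intro t
    rw [sub_eq_add_neg, hπ, pi_neg π hπ, pi_neg π hπ, ← sub_eq_add_neg]
  simp only [this]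
  exact sum_fib π f F hF (fun q => g (-q - π x))

theorem q3 (π : G → Q) (hπ : ∀ x y, π (x + y) = π x + π y) (f : G → ℤ) (F : Q → ℤ)
    (hF : ∀ q, ∑ x, (if π x = q then f x else 0) = F q) (g : Q → ℤ) (x : G) :
    ∑ y, f (x + y) * g (π y) = ∑ q, F (π x + q) * g q := by
  rw [← (Equiv.subRight x).sum_comp, ← (Equiv.subRight (π x)).sum_comp]
  simp only [Equiv.subRight_apply, add_sub_cancel]
  have : ∀ t : G, π (t - x) = π t - π x := by
    intro t
    rw [sub_eq_add_neg, hπ, pi_neg π hπ, ← sub_eq_add_neg]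
  simp only [this]
  exact sum_fib π f F hF (fun q => g (q - π x))

theorem gs_quot (π : G → Q) (hπ : ∀ x y, π (x + y) = π x + π y) (a b c d : G → ℤ)
    (A B C D : Q → ℤ)
    (hA : ∀ q, ∑ x, (if π x = q then a x else 0) = A q)
    (hB : ∀ q, ∑ x, (if π x = q then b x else 0) = B q)
    (hC : ∀ q, ∑ x, (if π x = q then c x else 0) = C q)
    (hD : ∀ q, ∑ x, (if π x = q then d x else 0) = D q) (g : Q → ℤ) (i j : Fin 4) (x : G) :
    ∑ y, gs a b c d i x j y * g (π y) = ∑ q, gs A B C D i (π x) j q * g q := by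
  fin_cases i <;> fin_cases j <;>
    simp only [Fin.zero_eta, Fin.mk_one, Fin.reduceFinMk, Fin.isValue, gs,
      neg_mul, Finset.sum_neg_distrib, neg_inj,
      q1 π hπ a A hA, q2 π hπ b B hB, q2 π hπ c C hC, q2 π hπ d D hD, q3 π hπ b B hB,
      q3 π hπ c C hC, q3 π hπ d D hD]

/-- the bordered array -/
def bord3 (π : G → Q) (φ : Fin 3 → Q → ℤ) (a b c d : G → ℤ) (z y : Fin 4 → Fin 3 → Fin 12 → ℤ)
    (X : Fin 12 → Fin 12 → ℤ) : Fin 12 ⊕ (Fin 4 × G) → Fin 12 ⊕ (Fin 4 × G) → ℤ
  | .inl p, .inl q => X p q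
  | .inl p, .inr (j, t) => ∑ k, y j k p * φ k (π t)
  | .inr (i, x), .inl q => ∑ k, z i k q * φ k (π x)
  | .inr (i, x), .inr (j, t) => gs a b c d i x j t

theorem word_pm (φ : Fin 3 → Q → ℤ) (hφ : ∀ k q, φ k q = 1 ∨ φ k q = -1) (f : Fin 3 → ℤ)
    (hf : ∃ k, (f k = 1 ∨ f k = -1) ∧ ∀ l, l ≠ k → f l = 0) (q : Q) :
    ∑ k, f k * φ k q = 1 ∨ ∑ k, f k * φ k q = -1 := by
  obtain ⟨k, hk, hl⟩ := hf
  rw [Finset.sum_eq_single k (fun l _ h => by rw [hl l h, zero_mul]) (by simp)]
  rcases hk with h | h <;> rcases hφ k q with h' | h' <;> rw [h, h'] <;> norm_num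

/-- The twelve-border construction. -/
theorem hadamard_border3 [DecidableEq G] (π : G → Q) (hπ : ∀ x y, π (x + y) = π x + π y)
    (a b c d : G → ℤ) (ha : ∀ x, a x = 1 ∨ a x = -1)
    (hb : ∀ x, b x = 1 ∨ b x = -1) (hc : ∀ x, c x = 1 ∨ c x = -1)
    (hd : ∀ x, d x = 1 ∨ d x = -1)
    (w : ℤ) (hw : ∀ q, ∑ x, (if π x = q then (1 : ℤ) else 0) = w)
    (A B C D : Q → ℤ)
    (hA : ∀ q, ∑ x, (if π x = q then a x else 0) = A q)
    (hB : ∀ q, ∑ x, (if π x = q then b x else 0) = B q)
    (hC : ∀ q, ∑ x, (if π x = q then c x else 0) = C q)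
    (hD : ∀ q, ∑ x, (if π x = q then d x else 0) = D q)
    (φ : Fin 3 → Q → ℤ) (φpm : ∀ k q, φ k q = 1 ∨ φ k q = -1)
    (hφ : ∀ k l, ∑ q, φ k q * φ l q = if k = l then 4 else 0)
    (u : Fin 3 → Fin 4 → Fin 4 → ℤ)
    (hu : ∀ k i j x, ∑ q, gs A B C D i x j q * φ k q = u k i j * φ k x)
    (z y : Fin 4 → Fin 3 → Fin 12 → ℤ)
    (hz : ∀ i p, ∃ k, (z i k p = 1 ∨ z i k p = -1) ∧ ∀ l, l ≠ k → z i l p = 0)
    (hy : ∀ i p, ∃ k, (y i k p = 1 ∨ y i k p = -1) ∧ ∀ l, l ≠ k → y i l p = 0)
    (hzz : ∀ i k j l, ∑ p, z i k p * z j l p = if i = j ∧ k = l then 4 else 0)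
    (hyy : ∀ p p', ∑ i, ∑ k, y i k p * y i k p' = if p = p' then 4 else 0)
    (X : Fin 12 → Fin 12 → ℤ) (Xpm : ∀ p q, X p q = 1 ∨ X p q = -1)
    (hXX : ∀ p p', ∑ q, X p q * X p' q = if p = p' then 12 else 0)
    (hX : ∀ p i k, ∑ q, X p q * z i k q + ∑ j, u k i j * y j k p = 0)
    (τ : Q → ℤ) (hτ : ∀ x t, τ (x - t) = -4 * ∑ k, φ k x * φ k t)
    (hP : ∀ s, s ≠ 0 → P a b c d s = τ (π s)) :
    HadOrder (4 * (Fintype.card G + 3)) := by
  have hQ : (Fintype.card Q : ℤ) = 4 := by
    have := hφ 0 0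
    rw [if_pos rfl] at this
    rw [← this]
    have e : ∀ q ∈ (Finset.univ : Finset Q), φ 0 q * φ 0 q = 1 := by
      intro q _
      rcases φpm 0 q with h | h <;> rw [h] <;> norm_num
    rw [Finset.sum_congr rfl e]
    simp
  have hG : (Fintype.card G : ℤ) = 4 * w := by
    have := sum_fib π (fun _ => (1 : ℤ)) (fun _ => w) hw (fun _ => 1)
    simp only [mul_one, Finset.sum_const, Finset.card_univ, nsmul_eq_mul] at this
    rw [this, hQ]
  have hsub : ∀ x t, π (x - t) = π x - π t := by
    intro x t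
    rw [sub_eq_add_neg, hπ, pi_neg π hπ, ← sub_eq_add_neg]
  -- the border columns
  have hZZ : ∀ i x i' x', ∑ p, (∑ k, z i k p * φ k (π x)) * (∑ l, z i' l p * φ l (π x')) =
      if i = i' then 4 * ∑ k, φ k (π x) * φ k (π x') else 0 := by
    intro i x i' x'
    have e1 : ∀ p : Fin 12, (∑ k, z i k p * φ k (π x)) * (∑ l, z i' l p * φ l (π x')) =
        ∑ k, ∑ l, (z i k p * z i' l p) * (φ k (π x) * φ l (π x')) := by
      intro p
      rw [Finset.sum_mul_sum]
      refine Finset.sum_congr rfl fun k _ => Finset.sum_congr rfl fun l _ => ?_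
      ring
    simp only [e1]
    rw [Finset.sum_comm]
    have e2 : ∀ k : Fin 3, ∑ p, ∑ l, (z i k p * z i' l p) * (φ k (π x) * φ l (π x')) =
        if i = i' then 4 * (φ k (π x) * φ k (π x')) else 0 := by
      intro k
      rw [Finset.sum_comm]
      simp only [← Finset.sum_mul, hzz]
      by_cases h : i = i'
      · simp [h]
      · simp [h]
    simp only [e2]
    by_cases h : i = i'
    · simp [h, Finset.mul_sum]
    · simp [h]
  -- the border rows
  have hYY : ∀ p p', ∑ j, ∑ t, (∑ k, y j k p * φ k (π t)) * (∑ l, y j l p' * φ l (π t)) =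
      if p = p' then 16 * w else 0 := by
    intro p p'
    have e1 : ∀ (j : Fin 4) (t : G),
        (∑ k, y j k p * φ k (π t)) * (∑ l, y j l p' * φ l (π t)) =
        ∑ k, ∑ l, (y j k p * y j l p') * (φ k (π t) * φ l (π t)) := by
      intro j t
      rw [Finset.sum_mul_sum]
      refine Finset.sum_congr rfl fun k _ => Finset.sum_congr rfl fun l _ => ?_
      ring
    have e3 : ∀ k l : Fin 3, ∑ t : G, φ k (π t) * φ l (π t) = if k = l then 4 * w else 0 := by
      intro k l
      have := sum_fib π (fun _ => (1 : ℤ)) (fun _ => w) hw (fun q => φ k q * φ l q)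
      simp only [one_mul] at this
      rw [this, ← Finset.mul_sum, hφ]
      by_cases h : k = l
      · simp [h, mul_comm]
      · simp [h]
    have e2 : ∀ j : Fin 4, ∑ t : G, ∑ k, ∑ l, (y j k p * y j l p') * (φ k (π t) * φ l (π t)) =
        4 * w * ∑ k, y j k p * y j k p' := by
      intro j
      rw [Finset.sum_comm, Finset.mul_sum]
      refine Finset.sum_congr rfl fun k _ => ?_
      rw [Finset.sum_comm]
      simp only [← Finset.mul_sum, e3]
      simp [mul_comm]
    simp only [e1, e2, ← Finset.mul_sum, hyy]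
    by_cases h : p = p'
    · simp [h]; ring
    · simp [h]
  -- border rows against the others
  have cross : ∀ (p : Fin 12) (i : Fin 4) (x : G),
      ∑ r, bord3 π φ a b c d z y X (.inl p) r * bord3 π φ a b c d z y X (.inr (i, x)) r = 0 := by
    intro p i x
    rw [Fintype.sum_sum_type, Fintype.sum_prod_type]
    simp only [bord3]
    have e1 : ∑ q, X p q * ∑ k, z i k q * φ k (π x) =
        ∑ k, (∑ q, X p q * z i k q) * φ k (π x) := by
      simp only [Finset.mul_sum, Finset.sum_mul]
      rw [Finset.sum_comm]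
      refine Finset.sum_congr rfl fun k _ => Finset.sum_congr rfl fun q _ => ?_
      ring
    have e2 : ∀ j : Fin 4, ∑ t, (∑ k, y j k p * φ k (π t)) * gs a b c d i x j t =
        ∑ k, (u k i j * y j k p) * φ k (π x) := by
      intro j
      have : ∀ t : G, (∑ k, y j k p * φ k (π t)) * gs a b c d i x j t =
          ∑ k, y j k p * (gs a b c d i x j t * φ k (π t)) := by
        intro t
        rw [Finset.sum_mul]
        refine Finset.sum_congr rfl fun k _ => ?_
        ring
      simp only [this]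
      rw [Finset.sum_comm]
      refine Finset.sum_congr rfl fun k _ => ?_
      rw [← Finset.mul_sum, gs_quot π hπ a b c d A B C D hA hB hC hD (φ k) i j x, hu]
      ring
    simp only [e1, e2]
    rw [Finset.sum_comm (s := (Finset.univ : Finset (Fin 4))), ← Finset.sum_add_distrib]
    refine Finset.sum_eq_zero fun k _ => ?_
    rw [← Finset.sum_mul, ← add_mul, hX, zero_mul]
  refine hadOrder_of (ι := Fin 12 ⊕ (Fin 4 × G)) _ (by simp; ring)
    (bord3 π φ a b c d z y X) ?_ ?_
  · rintro (p | ⟨i, x⟩) (q | ⟨j, t⟩)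
    · exact Xpm _ _
    · exact word_pm φ φpm (fun k => y j k p) (hy j p) (π t)
    · exact word_pm φ φpm (fun k => z i k q) (hz i q) (π x)
    · exact gs_pm a b c d ha hb hc hd _ _ _ _
  · rintro (p | ⟨i, x⟩) (p' | ⟨i', x'⟩)
    · rw [Fintype.sum_sum_type, Fintype.sum_prod_type]
      simp only [bord3]
      rw [hXX, hYY]
      by_cases h : p = p'
      · simp [h, hG]; ring
      · simp [h]
    · rw [cross]; simp
    · have := cross p' i x
      simp only [reduceCtorEq, if_false]
      rw [← this]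
      exact Finset.sum_congr rfl fun r _ => mul_comm _ _
    · rw [Fintype.sum_sum_type, Fintype.sum_prod_type]
      simp only [bord3]
      rw [hZZ, gs_inner]
      by_cases h : i = i'
      · by_cases h' : x = x'
        · subst h; subst h'
          have e : ∑ k, φ k (π x) * φ k (π x) = 3 := by
            have : ∀ k ∈ (Finset.univ : Finset (Fin 3)), φ k (π x) * φ k (π x) = 1 := by
              intro k _
              rcases φpm k (π x) with h | h <;> rw [h] <;> norm_num
            rw [Finset.sum_congr rfl this]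
            simp
          simp [P_zero a b c d ha hb hc hd, e]; ring
        · have e := hτ (π x) (π x')
          rw [← hsub] at e
          simp [h, h', hP (x - x') (sub_ne_zero.2 h'), e]
      · simp [h]

end Pool.Agent.TH394
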