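import Mathlib
import Pool.Agent.TH394.HadBorder

/-!
# Kernel checks for the array with a border of width twelve
-/

set_option autoImplicit false

namespace Pool.Agent.TH394

variable {G : Type} [AddCommGroup G] [Fintype G] [Loop G]

/-- number of elements whose code satisfies `pr` -/
def cnt (G : Type) [AddCommGroup G] [Fintype G] [Loop G] (pr : ℕ → Bool) : ℕ :=
  Loop.corr (fun p _ => cond (pr p) 1 0) (0 : G)

/-- number of `+1` in sequence `i` among the elements whose code satisfies `pr` -/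
def onesC (G : Type) [AddCommGroup G] [Fintype G] [Loop G] (Q i : ℕ) (pr : ℕ → Bool) : ℕ :=
  Loop.corr (fun p _ => cond (pr p) (Nat.mod (Nat.div (nib Q p) (2 ^ i)) 2) 0) (0 : G)

theorem sum_cnt (pr : ℕ → Bool) :
    ∑ x : G, (if pr (Loop.enc x) = true then (1 : ℤ) else 0) = (cnt G pr : ℤ) := by
  unfold cnt
  rw [Loop.corr_spec]
  push_cast
  refine Finset.sum_congr rfl fun x _ => ?_
  cases h : pr (Loop.enc x) <;> simp

theorem sum_sqC (Q i : ℕ) (pr : ℕ → Bool) :
    ∑ x : G, (if pr (Loop.enc x) = true then sq Q i x else 0) =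
      2 * (onesC G Q i pr : ℤ) - (cnt G pr : ℤ) := by
  unfold onesC cnt
  rw [Loop.corr_spec, Loop.corr_spec]
  push_cast
  rw [Finset.mul_sum, ← Finset.sum_sub_distrib]
  refine Finset.sum_congr rfl fun x _ => ?_
  have key : sq Q i x =
      2 * ((Nat.mod (Nat.div (nib Q (Loop.enc x)) (2 ^ i)) 2 : ℕ) : ℤ) - 1 := by
    unfold sq sgn
    rw [Nat.testBit_eq_decide_div_mod_eq]
    have h2 : Nat.mod (Nat.div (nib Q (Loop.enc x)) (2 ^ i)) 2 =
      nib Q (Loop.enc x) / 2 ^ i % 2 := rfl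
    rw [h2]
    rcases Nat.mod_two_eq_zero_or_one (nib Q (Loop.enc x) / 2 ^ i) with h | h <;> simp [h]
  cases h : pr (Loop.enc x)
  · simp
  · simp only [if_true, cond_true, key, Nat.cast_one]

/-- check of all shifts with prescribed number of agreements -/
def checkC (G : Type) [AddCommGroup G] [Fintype G] [Loop G] (Q : ℕ) (t : ℕ → ℕ) : Bool :=
  Loop.all (fun s : G => good Q (t (Loop.enc s)) s)

theorem checkC_spec (Q : ℕ) (t : ℕ → ℕ) (h : checkC G Q t = true) (s : G) (hs : s ≠ 0) :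
    P (sq Q 0) (sq Q 1) (sq Q 2) (sq Q 3) s =
      2 * (t (Loop.enc s) : ℤ) - 4 * (Fintype.card G : ℤ) := by
  rw [P_sq, good_spec Q _ s hs (Loop.all_spec _ h s)]

end Pool.Agent.TH394
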