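import Mathlib
import Pool.Agent.TH394.HadCheck3
import Pool.Agent.TH786.HadBorderQ

/-!
# A Hadamard matrix of order 1388

Four `±1` sequences on `G = Z_2 x Z_9 x Z_19` (nibble `p` of `S` holds the four signs at
the element with code `p`), invariant under multiplication by `(1, 5, 11)`.
With `N` the kernel of the map from `G` onto `Q = Z_2 x Z_3`, the total periodic autocorrelation is
`-20` at the nonzero elements of `N` and `4` outside `N`. The Goethals-Seidel array of order
`1368` is bordered by twenty rows and columns that are constant on the cosets of `N`.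
-/

set_option autoImplicit false

namespace Pool.Agent.TH394.N347

open Pool.Agent.TH786.Had

/-- the group -/
abbrev G : Type := Fin 2 × Fin 9 × Fin 19

/-- the quotient -/
abbrev Q : Type := Fin 2 × Fin 3

/-- the sequences -/
def S : ℕ :=
  0x27dfeb82005b685f1da5d8b102bf58d076ef2af00b9bf6bdf6d0d996a8870ff5db6225d01eba8870ff5db6225d01ebaf00b9bf6bdf6d0d996a5d8b102bf58d076ef2a27dfeb82005b685f1da7aa4247441741a1224aea44b3d0b293db654f894b34be346df2adb508e774e4ea49ea979eea3dbab549f3de06424b38dbab549f3de06424b38e774e4ea49ea979eea394b34be346df2adb508ea44b3d0b293db654f83115853b513b11188b5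

/-- the quotient map -/
def pi (x : G) : Q := (x.1, Fin.ofNat 3 x.2.1.1)

/-- the code of a class -/
def cd (q : Q) : ℕ := Nat.add (Nat.mul 3 q.1.1) q.2.1

/-- the class of a code -/
def pr (q : ℕ) (p : ℕ) : Bool := Nat.beq (Nat.add (Nat.mul 3 (Nat.div p 171)) (Nat.mod (Nat.div p 19) 3)) q

theorem pi_pr : ∀ (q : Q) (x : G), pi x = q ↔ pr (cd q) (Loop.enc x) = true := by
  decide +kernel

theorem pi_add : ∀ x y : G, pi (x + y) = pi x + pi y := by
  have h : ∀ p q : Fin 9, Fin.ofNat 3 (p + q).1 = Fin.ofNat 3 p.1 + Fin.ofNat 3 q.1 := by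
    decide +kernel
  intro x y
  exact Prod.ext rfl (h x.2.1 y.2.1)

/-- agreements needed at the shift with code `p` -/
def tt (p : ℕ) : ℕ := cond (pr 0 p) 674 686

set_option maxRecDepth 100000 in
theorem check : checkC G S tt = true := by decide +kernel

/-- class sums -/
def cA : Q → ℤ := fun q => if q = 0 then 3 else 3
/-- class sums -/
def cB : Q → ℤ := fun q => if q = 0 then 7 else 3
/-- class sums -/
def cC : Q → ℤ := fun q => if q = 0 then -1 else -3
/-- class sums -/
def cD : Q → ℤ := fun q => if q = 0 then 3 else 3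

/-- code of the border columns -/
def Zn : ℕ := 0x73a5239d299ce94ce54ae70a5003ffd15936c8d9b247c5d22eaab0707fe08b8bac1e4d64d363668b1f155f83e0a53185298c294c6948634a631fffff

/-- code of the border rows -/
def Yn : ℕ := 0x571993c69725a4bc992c7b231d568d54e653c568e5a743592f84e31ea94d6aca9599a3b17265a9c9cd0bb32e076935559a5c71719a69ca32cbb0d1c7

/-- code of the corner -/
def Xn : ℕ := 0x392fa98b6dc87b6e43cb721f5de0a8eb244f192278e81bc550afbb1d3fd86ddecb6ee65f7630a9c2814e144a702272815384

/-- border columns -/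
def Z (i : Fin 4) (q : Q) (p : Fin 20) : ℤ :=
  sgn Zn (Nat.add (Nat.mul (Nat.add (Nat.mul 6 i.1) (cd q)) 20) p.1)

/-- border rows -/
def Y (p : Fin 20) (i : Fin 4) (q : Q) : ℤ :=
  sgn Yn (Nat.add (Nat.mul p.1 24) (Nat.add (Nat.mul 6 i.1) (cd q)))

/-- corner -/
def X (p q : Fin 20) : ℤ := sgn Xn (Nat.add (Nat.mul p.1 20) q.1)

theorem cls (i : ℕ) (c : Q → ℤ)
    (h : ∀ q : Q, 2 * (onesC G S i (pr (cd q)) : ℤ) - (cnt G (pr (cd q)) : ℤ) = c q) (q : Q) :
    ∑ x : G, (if pi x = q then sq S i x else 0) = c q := by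
  rw [← h q, ← sum_sqC]
  exact Finset.sum_congr rfl fun x _ => if_congr (pi_pr q x) rfl rfl

theorem clsw (h : ∀ q : Q, cnt G (pr (cd q)) = 57) (q : Q) :
    ∑ x : G, (if pi x = q then (1 : ℤ) else 0) = 57 := by
  have e := h q
  have : ((cnt G (pr (cd q)) : ℕ) : ℤ) = 57 := by rw [e]; rfl
  rw [← this, ← sum_cnt]
  exact Finset.sum_congr rfl fun x _ => if_congr (pi_pr q x) rfl rfl

/-- prescribed autocorrelation -/
def tau (q : Q) : ℤ := if q = 0 then -20 else 4

theorem tt_tau : ∀ s : G, 2 * (tt (Loop.enc s) : ℤ) - 1368 = tau (pi s) := by decide +kernel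

theorem h1 : ∀ p p' : Fin 20, ∑ q, X p q * X p' q + 57 * ∑ j, ∑ q, Y p j q * Y p' j q =
    if p = p' then (1388 : ℤ) else 0 := by decide +kernel

theorem h2 : ∀ (p : Fin 20) (i : Fin 4) (x : Q),
    ∑ q, X p q * Z i x q + ∑ j, ∑ q, gs cA cB cC cD i x j q * Y p j q = 0 := by
  decide +kernel

theorem h3 : ∀ (i : Fin 4) (x : Q) (i' : Fin 4) (t : Q),
    ∑ p, Z i x p * Z i' t p = if i = i' then -tau (x - t) else 0 := by decide +kernel

theorem had : HadOrder 1388 := by
  have e : 20 + 4 * Fintype.card G = 1388 := by simp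
  rw [← e]
  refine hadamard_borderQ (G := G) (Q := Q) pi pi_add (sq S 0) (sq S 1) (sq S 2) (sq S 3)
    (fun x => sgn_pm _ _) (fun x => sgn_pm _ _) (fun x => sgn_pm _ _) (fun x => sgn_pm _ _)
    57 (clsw (by decide +kernel)) cA cB cC cD
    (cls 0 cA (by decide +kernel)) (cls 1 cB (by decide +kernel)) (cls 2 cC (by decide +kernel))
    (cls 3 cD (by decide +kernel)) Z Y X (fun _ _ _ => sgn_pm _ _) (fun _ _ _ => sgn_pm _ _)
    (fun _ _ => sgn_pm _ _) 1388 (by simp) h1 h2 tau h3 ?_
  intro s hs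
  have g1 := checkC_spec S tt check s hs
  have g2 : (Fintype.card G : ℤ) = 342 := by simp
  rw [g1, g2, ← tt_tau s]
  norm_num

end Pool.Agent.TH394.N347
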