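import Mathlib
import Pool.Agent.TH394.HadCheck

/-!
# A Hadamard matrix of order 1676

Four `±1` sequences on `Fin 2 × Fin 11 × Fin 19` (nibble `x` of `Q` holds the four signs at the element
with code `x`) with row sums `2, 0, 0, 0` and total periodic autocorrelation `-4`.
-/

set_option autoImplicit false

namespace Pool.Agent.TH394.N419

/-- the sequences -/
def Q : ℕ :=
  0x333e8e3ce43c43488c0cee171c11bc1beb771a333e8e3ce43c43488c0333e8e3ce43c43488c0333e8e3ce43c43488c0cee171c11bc1beb771acee171c11bc1beb771acee171c11bc1beb771a333e8e3ce43c43488c0cee171c11bc1beb771ae99030ed0aeda9a33dca990a0a50da5d9daa565667d75a725a262ddada990a0a50da5d9daa56a990a0a50da5d9daa56a990a0a50da5d9daa565667d75a725a262ddad5667d75a725a262ddad5667d75a725a262ddada990a0a50da5d9daa565667d75a725a262ddadf33454f947f97375593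

set_option maxRecDepth 100000 in
theorem check : checkB (Fin 2 × Fin 11 × Fin 19) Q 418 = true := by decide +kernel

theorem ones0 : ones (Fin 2 × Fin 11 × Fin 19) Q 0 = 210 := by decide +kernel
theorem ones1 : ones (Fin 2 × Fin 11 × Fin 19) Q 1 = 209 := by decide +kernel
theorem ones2 : ones (Fin 2 × Fin 11 × Fin 19) Q 2 = 209 := by decide +kernel
theorem ones3 : ones (Fin 2 × Fin 11 × Fin 19) Q 3 = 209 := by decide +kernel

theorem had : HadOrder 1676 :=
  hadamard_checkB (Fin 2 × Fin 11 × Fin 19) Q 418 209 (by simp) (by norm_num) check ones0 ones1 ones2 ones3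

end Pool.Agent.TH394.N419
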