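import Mathlib
import Pool.Agent.TH394.HadCheck

/-!
# A Hadamard matrix of order 1772

Four `±1` sequences on `Fin 2 × Fin 13 × Fin 17` (nibble `x` of `Q` holds the four signs at the element
with code `x`) with row sums `2, 0, 0, 0` and total periodic autocorrelation `-4`.
-/

set_option autoImplicit false

namespace Pool.Agent.TH394.N443

/-- the sequences -/
def Q : ℕ :=
  0x7697988668897967767161aa77aa16176c76979886688979677d92d26699662d29d667161aa77aa16176c67161aa77aa16176c8cf8f11cc11f8fc858cf8f11cc11f8fc8576979886688979677d92d26699662d29d68cf8f11cc11f8fc85d92d26699662d29d603e0e773377e0e305a4bab114411bab4a94f040bbffbb040f48a4bab114411bab4a954e5e334433e5e45a4f040bbffbb040f484f040bbffbb040f48fb0f0ccbbcc0f0bf3fb0f0ccbbcc0f0bf3a4bab114411bab4a954e5e334433e5e45afb0f0ccbbcc0f0bf354e5e334433e5e45a9ad9d44aa44d9da9b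

set_option maxRecDepth 100000 in
theorem check : checkB (Fin 2 × Fin 13 × Fin 17) Q 442 = true := by decide +kernel

theorem ones0 : ones (Fin 2 × Fin 13 × Fin 17) Q 0 = 222 := by decide +kernel
theorem ones1 : ones (Fin 2 × Fin 13 × Fin 17) Q 1 = 221 := by decide +kernel
theorem ones2 : ones (Fin 2 × Fin 13 × Fin 17) Q 2 = 221 := by decide +kernel
theorem ones3 : ones (Fin 2 × Fin 13 × Fin 17) Q 3 = 221 := by decide +kernel

theorem had : HadOrder 1772 :=
  hadamard_checkB (Fin 2 × Fin 13 × Fin 17) Q 442 221 (by simp) (by norm_num) check ones0 ones1 ones2 ones3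

end Pool.Agent.TH394.N443
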