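import Mathlib
import Pool.Agent.TH394.HadCheck3
import Pool.Agent.TH786.HadBorderQ

/-!
# A Hadamard matrix of order 1916

Four `±1` sequences on `G = Z_2 x Z_2 x Z_7 x Z_17` (nibble `p` of `S` holds the four signs at
the element with code `p`), invariant under multiplication by `(ω, 2, 1)` and `(1, -1, 4)`, where
`ω` has order three on `Z_2 x Z_2`.
With `N` the kernel of the map from `G` onto `Q = Z_2 x Z_2`, the total periodic autocorrelation is
`-12` at the nonzero elements of `N` and `4` outside `N`. The Goethals-Seidel array of order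
`1904` is bordered by twelve rows and columns that are constant on the cosets of `N`.
-/

set_option autoImplicit false

namespace Pool.Agent.TH394.N479

open Pool.Agent.TH786.Had

/-- the group -/
abbrev G : Type := Fin 2 × Fin 2 × Fin 7 × Fin 17

/-- the quotient -/
abbrev Q : Type := Fin 2 × Fin 2

/-- the sequences -/
def S : ℕ :=
  0x9a4b2dd11dd2b4a9fbae7d061160d7eab86498fa0ff0af894668ff690a44a096ff8671dbe60aa06ebd178b1294ddaadd4921bf71e7e551155e7e1708ff690a44a096ff869a4b2dd11dd2b4a9f71dbe60aa06ebd178bae7d061160d7eab8b1294ddaadd4921bf6498fa0ff0af8946671e7e551155e7e170bae7d061160d7eab88ff690a44a096ff86b1294ddaadd4921bf9a4b2dd11dd2b4a9f6498fa0ff0af8946671dbe60aa06ebd17871e7e551155e7e170082d37deed73d2801082d37deed73d2801de302d7887d203ed1082d37deed73d2801de302d7887d203ed1de302d7887d203ed1ffcfcaaffaacfcffe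

/-- the quotient map -/
def pi (x : G) : Q := (x.1, x.2.1)

/-- the code of a class -/
def cd (q : Q) : ℕ := Nat.add (Nat.mul 2 q.1.1) q.2.1

/-- the class of a code -/
def pr (q : ℕ) (p : ℕ) : Bool := Nat.beq (Nat.div p 119) q

theorem pi_pr : ∀ (q : Q) (x : G), pi x = q ↔ pr (cd q) (Loop.enc x) = true := by
  decide +kernel

theorem pi_add : ∀ x y : G, pi (x + y) = pi x + pi y := fun _ _ => rfl

/-- agreements needed at the shift with code `p` -/
def tt (p : ℕ) : ℕ := cond (pr 0 p) 946 954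

set_option maxRecDepth 100000 in
theorem check : checkC G S tt = true := by decide +kernel

/-- class sums -/
def cA : Q → ℤ := fun q => if q = 0 then 5 else 5
/-- class sums -/
def cB : Q → ℤ := fun q => if q = 0 then 3 else 1
/-- class sums -/
def cC : Q → ℤ := fun q => if q = 0 then 3 else 1
/-- class sums -/
def cD : Q → ℤ := fun q => if q = 0 then 11 else 9

/-- code of the border columns -/
def Zn : ℕ := 0x3635aca5cc93c6a39a6c59359c9556aa6639f000f000ffff

/-- code of the border rows -/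
def Yn : ℕ := 0x66959665c95539a56a699a99a53955c9acc35c33c3a33353

/-- code of the corner -/
def Xn : ℕ := 0xd3c7991174b2f730799a1c0babf625cd5a10

/-- border columns -/
def Z (i : Fin 4) (q : Q) (p : Fin 12) : ℤ :=
  sgn Zn (Nat.add (Nat.mul (Nat.add (Nat.mul 4 i.1) (cd q)) 12) p.1)

/-- border rows -/
def Y (p : Fin 12) (i : Fin 4) (q : Q) : ℤ :=
  sgn Yn (Nat.add (Nat.mul p.1 16) (Nat.add (Nat.mul 4 i.1) (cd q)))

/-- corner -/
def X (p q : Fin 12) : ℤ := sgn Xn (Nat.add (Nat.mul p.1 12) q.1)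

theorem cls (i : ℕ) (c : Q → ℤ)
    (h : ∀ q : Q, 2 * (onesC G S i (pr (cd q)) : ℤ) - (cnt G (pr (cd q)) : ℤ) = c q) (q : Q) :
    ∑ x : G, (if pi x = q then sq S i x else 0) = c q := by
  rw [← h q, ← sum_sqC]
  exact Finset.sum_congr rfl fun x _ => if_congr (pi_pr q x) rfl rfl

theorem clsw (h : ∀ q : Q, cnt G (pr (cd q)) = 119) (q : Q) :
    ∑ x : G, (if pi x = q then (1 : ℤ) else 0) = 119 := by
  have e := h q
  have : ((cnt G (pr (cd q)) : ℕ) : ℤ) = 119 := by rw [e]; rfl
  rw [← this, ← sum_cnt]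
  exact Finset.sum_congr rfl fun x _ => if_congr (pi_pr q x) rfl rfl

/-- prescribed autocorrelation -/
def tau (q : Q) : ℤ := if q = 0 then -12 else 4

theorem tt_tau : ∀ s : G, 2 * (tt (Loop.enc s) : ℤ) - 1904 = tau (pi s) := by decide +kernel

theorem h1 : ∀ p p' : Fin 12, ∑ q, X p q * X p' q + 119 * ∑ j, ∑ q, Y p j q * Y p' j q =
    if p = p' then (1916 : ℤ) else 0 := by decide +kernel

theorem h2 : ∀ (p : Fin 12) (i : Fin 4) (x : Q),
    ∑ q, X p q * Z i x q + ∑ j, ∑ q, gs cA cB cC cD i x j q * Y p j q = 0 := by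
  decide +kernel

theorem h3 : ∀ (i : Fin 4) (x : Q) (i' : Fin 4) (t : Q),
    ∑ p, Z i x p * Z i' t p = if i = i' then -tau (x - t) else 0 := by decide +kernel

theorem had : HadOrder 1916 := by
  have e : 12 + 4 * Fintype.card G = 1916 := by simp
  rw [← e]
  refine hadamard_borderQ (G := G) (Q := Q) pi pi_add (sq S 0) (sq S 1) (sq S 2) (sq S 3)
    (fun x => sgn_pm _ _) (fun x => sgn_pm _ _) (fun x => sgn_pm _ _) (fun x => sgn_pm _ _)
    119 (clsw (by decide +kernel)) cA cB cC cD
    (cls 0 cA (by decide +kernel)) (cls 1 cB (by decide +kernel)) (cls 2 cC (by decide +kernel))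
    (cls 3 cD (by decide +kernel)) Z Y X (fun _ _ _ => sgn_pm _ _) (fun _ _ _ => sgn_pm _ _)
    (fun _ _ => sgn_pm _ _) 1916 (by simp) h1 h2 tau h3 ?_
  intro s hs
  have g1 := checkC_spec S tt check s hs
  have g2 : (Fintype.card G : ℤ) = 476 := by simp
  rw [g1, g2, ← tt_tau s]
  norm_num

end Pool.Agent.TH394.N479
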