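import Mathlib
import Pool.Agent.TH394.HadCheck

/-!
# A Hadamard matrix of order 1948

Four `±1` sequences on `Fin 2 × Fin 3 × Fin 3 × Fin 3 × Fin 3 × Fin 3` (nibble `x` of `Q` holds the four signs at the element
with code `x`) with row sums `2, 0, 0, 0` and total periodic autocorrelation `-4`.
-/

set_option autoImplicit false

namespace Pool.Agent.TH394.N487

/-- the sequences -/
def Q : ℕ :=
  0xe0a141fbcce70ec529c9be7cc7add7e9b54b293b20240035e00cdbd7f29ae302cd0f701dd0dece9d0e17ac5dc0a71440d31070503c2170d7dec3adbb77f1ad022ad1e2fa00decb04aefe4a520d727c44a027cbcc0d2f009a5a30e252f7705fa37a759721d0e247eacee230e3dc0aaaaba9ff24019952de3c2c153b80861aa5e95a5b4a41dfffeb22f541501b4e143b099e5599f112e644bde94a196f9821325ad429d8f6f52f96e80032e89e959eab8e91e15fe6211fe68b134b6185b6b931da1906d650b5491e4fa00694ff1fa3246334b56e3d45b6ee9566efbf54fb813db0fdbf5d4e95e2f9b6b616466b09844541deabff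

set_option maxRecDepth 100000 in
theorem check : checkB (Fin 2 × Fin 3 × Fin 3 × Fin 3 × Fin 3 × Fin 3) Q 486 = true := by decide +kernel

theorem ones0 : ones (Fin 2 × Fin 3 × Fin 3 × Fin 3 × Fin 3 × Fin 3) Q 0 = 244 := by decide +kernel
theorem ones1 : ones (Fin 2 × Fin 3 × Fin 3 × Fin 3 × Fin 3 × Fin 3) Q 1 = 243 := by decide +kernel
theorem ones2 : ones (Fin 2 × Fin 3 × Fin 3 × Fin 3 × Fin 3 × Fin 3) Q 2 = 243 := by decide +kernel
theorem ones3 : ones (Fin 2 × Fin 3 × Fin 3 × Fin 3 × Fin 3 × Fin 3) Q 3 = 243 := by decide +kernel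

theorem had : HadOrder 1948 :=
  hadamard_checkB (Fin 2 × Fin 3 × Fin 3 × Fin 3 × Fin 3 × Fin 3) Q 486 243 (by simp) (by norm_num) check ones0 ones1 ones2 ones3

end Pool.Agent.TH394.N487
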