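import Mathlib
import Pool.Agent.TH394.HadCheck

/-!
# A Hadamard matrix of order 1964

Four `±1` sequences on `Fin 2 × Fin 5 × Fin 7 × Fin 7` (nibble `x` of `Q` holds the four signs at the element
with code `x`) with row sums `2, 0, 0, 0` and total periodic autocorrelation `-4`.
-/

set_option autoImplicit false

namespace Pool.Agent.TH394.N491

/-- the sequences -/
def Q : ℕ :=
  0x1ab43f1413afb105ee27ca4f1b315e70e2ce0257ec99a9aa1c94b0febc09f4e321e5a19bfc40e2ea3151e352a11aa7a771c94b0febc09f4e321e5a19bfc40e2ea3151e352a11aa7a7711ab43f1413afb105ee27ca4f1b315e70e2ce0257ec99a9aa11444f0e41f404ef5e059144014fe509fe510f559e1449499d6db14a0164dab0b2e94edd1a6b4029ebe4d9b42eed3353557d31bbaebdb3a1e44092563bad1be49540269424506ddedee7d31bbaebdb3a1e44092563bad1be49540269424506ddedee76db14a0164dab0b2e94edd1a6b4029ebe4d9b42eed33535570ceeadfe0acdefadf4d30ced0eafd43afd04add3f0cc3c33a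

set_option maxRecDepth 100000 in
theorem check : checkB (Fin 2 × Fin 5 × Fin 7 × Fin 7) Q 490 = true := by decide +kernel

theorem ones0 : ones (Fin 2 × Fin 5 × Fin 7 × Fin 7) Q 0 = 246 := by decide +kernel
theorem ones1 : ones (Fin 2 × Fin 5 × Fin 7 × Fin 7) Q 1 = 245 := by decide +kernel
theorem ones2 : ones (Fin 2 × Fin 5 × Fin 7 × Fin 7) Q 2 = 245 := by decide +kernel
theorem ones3 : ones (Fin 2 × Fin 5 × Fin 7 × Fin 7) Q 3 = 245 := by decide +kernel

theorem had : HadOrder 1964 :=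
  hadamard_checkB (Fin 2 × Fin 5 × Fin 7 × Fin 7) Q 490 245 (by simp) (by norm_num) check ones0 ones1 ones2 ones3

end Pool.Agent.TH394.N491
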