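import Mathlib
import Pool.Agent.TH394.HadCheck

/-!
# A Hadamard matrix of order 3676

Four `±1` sequences on `Fin 919` (nibble `x` of `Q` holds the four signs at `x`) with total
periodic autocorrelation `0`.
-/

set_option autoImplicit false

namespace Pool.Agent.TH394.N919

/-- the sequences -/
def Q : ℕ :=
  0xe9413c7e330c398311de693801af1001fe2e73a5400c5a5ae3ceca1dce6b5b3e5b13765544ff2ac51039eb60fe30e54a353a08159c520e33e0e910f2e6321f95eee5ee0199e62131e0b0079be072381e0efdce7c1552a44337095fd539ce0c32ef050a40c7fafe61410866761d33e33f5393e5911e09ed20e360ae500e3b5fb179e9e55f0953f74e0fef9374d0ae3a5e330d329d796911e5e52769a60fcace69ddf957e8489584e05ed58f60207c806a1f9993e9eedbf3060f0950a9e3ec0a86f57b570ebdb0c075a874e76aeb09b03ed0ae539aa60079361ed80e91959ea1fb9663cfca49216efe6ed9f50c8583a08785e3c49950d59fe75bc53365d56d025e04e91599337535279b0906e1fd345c05b37dc5fd9c03247c5357c2f931e07199a1b363b8ee0011e8096c300faeeec3ef5991a634445f3036ed3b0c6afc65901903686ba196c905a00c0a09256000a5938fd9089e0a376447a65509ccdacd34e0fe1b4e2f6cea937ef3b9c815eb2f0990cb0b095e1fe302f9833a632819109a060d3534252e945589c23822a5c8edf4e6d26ab490c31936a219f50951b2792ab9583d32b35ecaeeaae0c40ba9595f6f045ea358e0fbf5de0e99a1cc85526e8b153f8084ce5c3ddcc0e041660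

set_option maxRecDepth 100000 in
theorem check : checkA (Fin 919) Q 919 = true := by decide +kernel

theorem had : HadOrder 3676 :=
  hadamard_checkA (Fin 919) Q 919 (by simp) check

end Pool.Agent.TH394.N919
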